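import Pool.Agent.N889.WU.Stm

/-! WU/LOC (helper833): local regularity for two periodic points. -/

set_option autoImplicit false

open Polynomial

namespace Pool.Agent.N833.WU

open Pool.Agent.N889.WU

universe u

section

variable {k L : Type u} [Field k] [Field L] [Algebra k L]

theorem v_one {A : ValuationSubring L} {x : L} (h : x ∈ A) (h' : x⁻¹ ∈ A) (h0 : x ≠ 0) :
    A.valuation x = 1 := by
  apply le_antisymm
  · exact (A.valuation_le_one_iff _).2 h
  · have h1 := (A.valuation_le_one_iff _).2 h'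
    rw [map_inv₀] at h1
    have h2 : 0 < A.valuation x := by
      rw [zero_lt_iff, Ne, map_eq_zero]
      exact h0
    exact (inv_le_one₀ h2).1 h1

/-- constants are units -/
theorem v_const {A : ValuationSubring L} (hA : ∀ a : k, algebraMap k L a ∈ A) {a : k}
    (ha : a ≠ 0) : A.valuation (algebraMap k L a) = 1 := by
  refine v_one (hA a) ?_ ?_
  · rw [← map_inv₀]
    exact hA _
  · rw [Ne, map_eq_zero]
    exact ha

/-- a uniformizer -/
theorem unif (A : ValuationSubring L) [IsDiscreteValuationRing A] :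
    ∃ π : L, π ≠ 0 ∧ π ∈ A ∧ A.valuation π < 1 ∧
      ∀ x : L, x ≠ 0 → ∃ m : ℤ, A.valuation x = A.valuation π ^ m := by
  obtain ⟨ϖ, hϖ⟩ := IsDiscreteValuationRing.exists_irreducible A
  have h0 : (ϖ : L) ≠ 0 := by
    intro h
    exact hϖ.ne_zero (Subtype.ext h)
  have h1 : ∀ a : A, a ≠ 0 → ∃ n : ℕ, A.valuation (a : L) = A.valuation (ϖ : L) ^ n := by
    intro a ha
    obtain ⟨n, u, hu⟩ := IsDiscreteValuationRing.associated_pow_irreducible ha hϖ
    refine ⟨n, ?_⟩
    have h2 : (a : L) * ((u : A) : L) = (ϖ : L) ^ n := by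
      have := congrArg (fun x : A => (x : L)) hu
      simpa using this
    have h3 := congrArg A.valuation h2
    rw [map_mul, map_pow, A.valuation_unit u, mul_one] at h3
    exact h3
  refine ⟨ϖ, h0, ϖ.2, ?_, ?_⟩
  · rw [← A.valuation_lt_one_iff, IsLocalRing.mem_maximalIdeal]
    exact hϖ.not_isUnit
  · intro x hx
    rcases A.mem_or_inv_mem x with h | h
    · obtain ⟨n, hn⟩ := h1 ⟨x, h⟩ (fun h' => hx (congrArg Subtype.val h'))
      refine ⟨n, ?_⟩
      rw [zpow_natCast]
      exact hn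
    · obtain ⟨n, hn⟩ := h1 ⟨x⁻¹, h⟩ (fun h' => (inv_ne_zero hx) (congrArg Subtype.val h'))
      refine ⟨-n, ?_⟩
      rw [zpow_neg, zpow_natCast, ← hn]
      show A.valuation x = (A.valuation x⁻¹)⁻¹
      rw [map_inv₀, inv_inv]

theorem mlt {Γ : Type*} [LinearOrderedCommGroupWithZero Γ] {a b : Γ} (ha : a ≤ 1) (hb : b < 1) :
    a * b < 1 := lt_of_le_of_lt (mul_le_of_le_one_left zero_le ha) hb

/-! ### leading terms -/

theorem lead {A : ValuationSubring L} (hA : ∀ a : k, algebraMap k L a ∈ A) (g : k[X]) (d : ℕ)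
    (hg : g.natDegree ≤ d) {y : L} (hy : A.valuation y < 1) (hy0 : y ≠ 0) :
    A.valuation (y ^ d * aeval y⁻¹ g - algebraMap k L (g.coeff d)) < 1 := by
  have e1 : y ^ d * aeval y⁻¹ g - algebraMap k L (g.coeff d) =
      ∑ i ∈ Finset.range d, algebraMap k L (g.coeff i) * y ^ (d - i) := by
    rw [aeval_eq_sum_range' (Nat.lt_succ_of_le hg), Finset.mul_sum, Finset.sum_range_succ]
    have : ∀ i ∈ Finset.range d, y ^ d * g.coeff i • y⁻¹ ^ i =
        algebraMap k L (g.coeff i) * y ^ (d - i) := by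
      intro i hi
      rw [Finset.mem_range] at hi
      obtain ⟨j, rfl⟩ := Nat.exists_eq_add_of_lt hi
      have e : i + j + 1 - i = j + 1 := by omega
      rw [e, Algebra.smul_def, add_assoc, pow_add, inv_pow]
      field_simp
    rw [Finset.sum_congr rfl this, Algebra.smul_def, inv_pow]
    field_simp
    ring
  rw [e1]
  refine Valuation.map_sum_lt _ one_ne_zero fun i hi => ?_
  rw [Finset.mem_range] at hi
  rw [map_mul, map_pow]
  have h1 : A.valuation (algebraMap k L (g.coeff i)) ≤ 1 := (A.valuation_le_one_iff _).2 (hA _)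
  have h2 : A.valuation y ^ (d - i) < 1 := pow_lt_one₀ zero_le hy (by omega)
  exact mlt h1 h2

theorem v_sub_lt {A : ValuationSubring L} {x y : L} (hx : A.valuation x < 1)
    (hy : A.valuation y < 1) : A.valuation (x - y) < 1 :=
  lt_of_le_of_lt (A.valuation.map_sub x y) (max_lt hx hy)

theorem v_add_lt {A : ValuationSubring L} {x y : L} (hx : A.valuation x < 1)
    (hy : A.valuation y < 1) : A.valuation (x + y) < 1 :=
  lt_of_le_of_lt (A.valuation.map_add x y) (max_lt hx hy)

theorem v_eq_one {A : ValuationSubring L} {x y : L} (hxy : A.valuation (x - y) < 1)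
    (hy : A.valuation y = 1) : A.valuation x = 1 := by
  have h : A.valuation (x - y) < A.valuation y := by rw [hy]; exact hxy
  have := A.valuation.map_add_eq_of_lt_right h
  rw [sub_add_cancel] at this
  rw [this, hy]

theorem v_pow_sub {A : ValuationSubring L} {u z : L} (hu : A.valuation u ≤ 1)
    (hz : A.valuation z ≤ 1) (h : A.valuation (u - z) < 1) (i : ℕ) :
    A.valuation (u ^ i - z ^ i) < 1 := by
  induction i with
  | zero => simp
  | succ i ih =>
    have e : u ^ (i + 1) - z ^ (i + 1) = u * (u ^ i - z ^ i) + z ^ i * (u - z) := by ring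
    rw [e]
    refine v_add_lt ?_ ?_
    · rw [map_mul]; exact mlt hu ih
    · rw [map_mul, map_pow]; exact mlt (pow_le_one₀ zero_le hz) h

/-- leading term of a difference -/
theorem lead2 {A : ValuationSubring L} (hA : ∀ a : k, algebraMap k L a ∈ A) (g : k[X]) (d : ℕ)
    (hg : g.natDegree ≤ d) {y u : L} (hy : A.valuation y < 1) (hy0 : y ≠ 0)
    (hu : A.valuation u = 1) {ζ : k} (hζ : A.valuation (u - algebraMap k L ζ) < 1) :
    A.valuation (y ^ d * (aeval y⁻¹ g - aeval (u * y⁻¹) g) -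
      algebraMap k L (g.coeff d * (1 - ζ ^ d))) < 1 := by
  have hu0 : u ≠ 0 := by
    intro h
    rw [h, map_zero] at hu
    exact zero_ne_one hu
  have h1 := lead hA g d hg hy hy0
  have hy' : A.valuation (y * u⁻¹) < 1 := by
    rw [map_mul, map_inv₀, hu, inv_one, mul_one]; exact hy
  have h2 := lead hA g d hg hy' (mul_ne_zero hy0 (inv_ne_zero hu0))
  have e0 : (y * u⁻¹)⁻¹ = u * y⁻¹ := by rw [mul_inv, inv_inv, mul_comm]
  rw [e0] at h2
  have hζ1 : A.valuation (algebraMap k L ζ) ≤ 1 := (A.valuation_le_one_iff _).2 (hA _)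
  have h3 := v_pow_sub hu.le hζ1 hζ d
  have hc : A.valuation (algebraMap k L (g.coeff d)) ≤ 1 := (A.valuation_le_one_iff _).2 (hA _)
  have e : y ^ d * (aeval y⁻¹ g - aeval (u * y⁻¹) g) -
      algebraMap k L (g.coeff d * (1 - ζ ^ d)) =
      (y ^ d * aeval y⁻¹ g - algebraMap k L (g.coeff d)) -
      u ^ d * ((y * u⁻¹) ^ d * aeval (u * y⁻¹) g - algebraMap k L (g.coeff d)) -
      algebraMap k L (g.coeff d) * (u ^ d - algebraMap k L ζ ^ d) := by
    rw [map_mul, map_sub, map_one, map_pow, mul_pow, inv_pow]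
    field_simp
    ring
  rw [e]
  refine v_sub_lt (v_sub_lt h1 ?_) ?_
  · rw [map_mul, map_pow, hu, one_pow, one_mul]; exact h2
  · rw [map_mul]; exact mlt hc h3

/-- size of the difference when the quotient is congruent to one -/
theorem diff1 {A : ValuationSubring L} (hA : ∀ a : k, algebraMap k L a ∈ A) (g : k[X])
    (he : algebraMap k L (g.coeff g.natDegree * (g.natDegree : k)) ≠ 0)
    {y u : L} (hy : A.valuation y < 1) (hy0 : y ≠ 0) (hu : A.valuation u = 1)
    (hu1 : A.valuation (u - 1) < 1) :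
    A.valuation (y ^ g.natDegree * (aeval y⁻¹ g - aeval (u * y⁻¹) g)) =
      A.valuation (1 - u) := by
  obtain ⟨e, hen⟩ : ∃ e, e = g.natDegree := ⟨_, rfl⟩
  have h1 : y ^ g.natDegree * (aeval y⁻¹ g - aeval (u * y⁻¹) g) =
      (1 - u) * ∑ i ∈ Finset.range (e + 1), algebraMap k L (g.coeff i) * y ^ (e - i) *
        ∑ j ∈ Finset.range i, u ^ j := by
    rw [← hen, aeval_eq_sum_range' (Nat.lt_succ_of_le hen.ge),
      aeval_eq_sum_range' (Nat.lt_succ_of_le hen.ge), ← Finset.sum_sub_distrib, Finset.mul_sum,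
      Finset.mul_sum]
    refine Finset.sum_congr rfl fun i hi => ?_
    rw [Finset.mem_range] at hi
    obtain ⟨j, hj⟩ : ∃ j, e = i + j := ⟨e - i, by omega⟩
    have e1 : e - i = j := by omega
    have e2 : (1 - u) * (algebraMap k L (g.coeff i) * y ^ (e - i) * ∑ j ∈ Finset.range i, u ^ j) =
        algebraMap k L (g.coeff i) * y ^ (e - i) * ((1 - u) * ∑ j ∈ Finset.range i, u ^ j) := by
      ring
    rw [e2, mul_neg_geom_sum, e1, Algebra.smul_def, Algebra.smul_def, hj, pow_add, mul_pow,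
      inv_pow]
    field_simp
  rw [h1, map_mul]
  have h2 : A.valuation (∑ i ∈ Finset.range (e + 1), algebraMap k L (g.coeff i) * y ^ (e - i) *
        ∑ j ∈ Finset.range i, u ^ j) = 1 := by
    refine v_eq_one (y := algebraMap k L (g.coeff g.natDegree * (g.natDegree : k))) ?_
      (v_const hA (fun h => he (by rw [h, map_zero])))
    rw [Finset.sum_range_succ, ← hen, Nat.sub_self, pow_zero, mul_one, map_mul, map_natCast,
      add_sub_assoc, ← mul_sub]
    refine v_add_lt ?_ ?_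
    · refine Valuation.map_sum_lt _ one_ne_zero fun i hi => ?_
      rw [Finset.mem_range] at hi
      rw [map_mul, map_mul, map_pow]
      have h3 : A.valuation (algebraMap k L (g.coeff i)) ≤ 1 := (A.valuation_le_one_iff _).2 (hA _)
      have h4 : A.valuation y ^ (e - i) < 1 := pow_lt_one₀ zero_le hy (by omega)
      have h5 : A.valuation (∑ j ∈ Finset.range i, u ^ j) ≤ 1 := by
        refine Valuation.map_sum_le _ fun j _ => ?_
        rw [map_pow, hu, one_pow]
      rw [mul_comm]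
      exact mlt h5 (mlt h3 h4)
    · rw [map_mul]
      refine mlt ((A.valuation_le_one_iff _).2 (hA _)) ?_
      have e3 : (∑ j ∈ Finset.range e, u ^ j) - (e : L) = ∑ j ∈ Finset.range e, (u ^ j - 1 ^ j) := by
        rw [Finset.sum_sub_distrib]
        simp
      rw [e3]
      exact Valuation.map_sum_lt _ one_ne_zero fun i _ => v_pow_sub hu.le (by simp) hu1 i
  rw [h2, mul_one]

/-! ### the filtration -/

/-- `x ∈ π ^ m N` -/
def PN (N : AddSubgroup L) (π : L) (m : ℤ) (x : L) : Prop := ∃ y ∈ N, x = π ^ m * y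

theorem pn_mul {A : ValuationSubring L} {D : Derivation k L L} {N : AddSubgroup L}
    (hN : Stable A D N) {π : L} (hπ : π ≠ 0) {i j : ℤ} {x y : L}
    (hx : A.valuation x ≤ A.valuation π ^ i) (hy : PN N π j y) : PN N π (i + j) (x * y) := by
  obtain ⟨y', hy', rfl⟩ := hy
  refine ⟨(π ^ (-i) * x) * y', hN.1 _ ?_ _ hy', ?_⟩
  · rw [← A.valuation_le_one_iff, map_mul, map_zpow₀, zpow_neg]
    have h0 : 0 < A.valuation π ^ i := by
      apply zpow_pos
      rw [zero_lt_iff, Ne, map_eq_zero]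
      exact hπ
    rw [inv_mul_le_iff₀ h0, mul_one]
    exact hx
  · rw [zpow_add₀ hπ, zpow_neg]
    have : π ^ i ≠ 0 := zpow_ne_zero _ hπ
    field_simp

theorem pn_mono {A : ValuationSubring L} {D : Derivation k L L} {N : AddSubgroup L}
    (hN : Stable A D N) {π : L} (hπ : π ≠ 0) (hπA : π ∈ A) {j : ℤ} {x : L} (hj : 0 ≤ j)
    (hx : PN N π j x) : x ∈ N := by
  obtain ⟨y', hy', rfl⟩ := hx
  refine hN.1 _ ?_ _ hy'
  obtain ⟨m, rfl⟩ := Int.eq_ofNat_of_zero_le hj
  rw [zpow_natCast]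
  exact pow_mem hπA m

theorem pn_div {A : ValuationSubring L} {D : Derivation k L L} {N : AddSubgroup L}
    (hN : Stable A D N) {π : L} (hπ : π ≠ 0) {i j : ℤ} {x y : L}
    (hx : A.valuation x = A.valuation π ^ i) (hy : PN N π j (x * y)) : PN N π (j - i) y := by
  have hx0 : x ≠ 0 := by
    intro h
    rw [h, map_zero] at hx
    have h0 : 0 < A.valuation π ^ i := by
      apply zpow_pos
      rw [zero_lt_iff, Ne, map_eq_zero]
      exact hπ
    exact h0.ne hx
  have h1 : A.valuation x⁻¹ ≤ A.valuation π ^ (-i) := by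
    rw [map_inv₀, hx, zpow_neg]
  have h2 := pn_mul hN hπ h1 hy
  rw [inv_mul_cancel_left₀ hx0] at h2
  have e : j - i = -i + j := by ring
  rw [e]
  exact h2

theorem pn_der {A : ValuationSubring L} {D : Derivation k L L} {N : AddSubgroup L}
    (hN : Stable A D N) {π : L} (hπ : π ≠ 0) (hπA : π ∈ A) {j : ℤ} {x : L}
    (hx : A.valuation x ≤ A.valuation π ^ j) : PN N π (j - 1) (D x) := by
  obtain ⟨a, ha⟩ : ∃ a, a = π ^ (-j) * x := ⟨_, rfl⟩
  have haA : a ∈ A := by
    rw [ha, ← A.valuation_le_one_iff, map_mul, map_zpow₀, zpow_neg]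
    have h0 : 0 < A.valuation π ^ j := by
      apply zpow_pos
      rw [zero_lt_iff, Ne, map_eq_zero]
      exact hπ
    rw [inv_mul_le_iff₀ h0, mul_one]
    exact hx
  have hxa : x = π ^ j * a := by
    rw [ha, zpow_neg, mul_inv_cancel_left₀ (zpow_ne_zero _ hπ)]
  refine ⟨π * D a + (j : L) * a * D π, N.add_mem (hN.1 _ hπA _ (hN.2 _ haA))
    (hN.1 _ (A.mul_mem _ _ ?_ haA) _ (hN.2 _ hπA)), ?_⟩
  · exact intCast_mem A j
  · rw [hxa, D.leibniz, D.leibniz_zpow, smul_eq_mul, smul_eq_mul, zsmul_eq_mul, smul_eq_mul,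
      zpow_sub_one₀ hπ]
    field_simp

end

theorem t_LOC : S_LOC.{u} := by
  intro p s hp k L _ _ _ _ h c z w A D N hs he hpe hpl hN hz hw hcase a b hab
  obtain ⟨hA, hdvr, hres⟩ := hpl
  have hchar : CharP L p := charP_of_injective_algebraMap (algebraMap k L).injective p
  rcases hcase with ⟨hzA, hwA⟩ | ⟨hzA, hwA, hzw, hwz, hfz, hfw⟩
  · rw [← mul_assoc]
    refine hN.1 _ ?_ _ ?_
    · exact A.mul_mem _ _ (A.mul_mem _ _ (pow_mem hzA a) (pow_mem hwA b)) (sub_mem hzA hwA)
    · rw [← hz]; exact hN.2 z hzA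
  obtain ⟨π, hπ, hπA, hπ1, hπv⟩ := unif A
  have hz0 : z ≠ 0 := fun h => hzA (h ▸ A.zero_mem)
  have hw0 : w ≠ 0 := fun h => hwA (h ▸ A.zero_mem)
  have hvπ : 0 < A.valuation π := by
    rw [zero_lt_iff, Ne, map_eq_zero]
    exact hπ
  have hmono : ∀ i j : ℤ, A.valuation π ^ i ≤ A.valuation π ^ j ↔ j ≤ i := fun i j =>
    zpow_le_zpow_iff_right_of_lt_one₀ hvπ hπ1
  obtain ⟨m, hm⟩ := hπv z hz0
  have hm0 : m < 0 := by
    by_contra hcon
    apply hzA
    rw [← A.valuation_le_one_iff, hm]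
    have := (hmono m 0).2 (not_lt.1 hcon)
    rwa [zpow_zero] at this
  obtain ⟨n, hn⟩ : ∃ n : ℤ, n = -m := ⟨_, rfl⟩
  have hn1 : 1 ≤ n := by omega
  have hvz : A.valuation z = A.valuation π ^ (-n) := by rw [hn, neg_neg]; exact hm
  obtain ⟨u, hu⟩ : ∃ u, u = w / z := ⟨_, rfl⟩
  have hu0 : u ≠ 0 := by rw [hu]; exact div_ne_zero hw0 hz0
  have hvu : A.valuation u = 1 :=
    v_one (by rw [hu]; exact hwz) (by rw [hu, inv_div]; exact hzw) hu0
  have hwu : w = u * z := by rw [hu, div_mul_cancel₀ _ hz0]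
  have hvw : A.valuation w = A.valuation z := by rw [hwu, map_mul, hvu, one_mul]
  obtain ⟨y, hy⟩ : ∃ y, y = z⁻¹ := ⟨_, rfl⟩
  have hy0 : y ≠ 0 := by rw [hy]; exact inv_ne_zero hz0
  have hyz : y⁻¹ = z := by rw [hy, inv_inv]
  have hvy' : A.valuation y = A.valuation π ^ n := by
    rw [hy, map_inv₀, hvz, zpow_neg, inv_inv]
  have hvy : A.valuation y < 1 := by
    rw [hvy', ← zpow_zero (A.valuation π), ← not_le, hmono]
    omega
  obtain ⟨ζ, hζ⟩ := hres u (by rw [hu]; exact hwz)
  rw [A.mem_nonunits_iff] at hζ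
  have hζ0 : ζ ≠ 0 := by
    intro h0
    rw [h0, map_zero, sub_zero, hvu] at hζ
    exact lt_irrefl _ hζ
  obtain ⟨e, hee⟩ : ∃ e, e = h.natDegree := ⟨_, rfl⟩
  have hh0 : h ≠ 0 := by
    intro h0
    rw [h0, natDegree_zero] at he
    omega
  have hlc : h.coeff e ≠ 0 := by
    rw [hee]
    exact leadingCoeff_ne_zero.2 hh0
  have hek : (e : k) ≠ 0 := by
    rw [Ne, CharP.cast_eq_zero_iff k p, hee]
    exact hpe
  obtain ⟨Δ, hΔ⟩ : ∃ Δ, Δ = aeval z h - aeval w h := ⟨_, rfl⟩
  have hΔp : A.valuation Δ ^ p ^ s ≤ A.valuation z := by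
    have e1 : Δ ^ p ^ s = (fm p s h c z / z - fm p s h c w / z) * z := by
      rw [sub_mul, div_mul_cancel₀ _ hz0, div_mul_cancel₀ _ hz0, hΔ, sub_pow_char_pow]
      unfold fm
      ring
    rw [← map_pow, e1, map_mul]
    refine mul_le_of_le_one_left zero_le ?_
    rw [A.valuation_le_one_iff]
    exact sub_mem hfz hfw
  have hps : (2 : ℤ) ≤ ((p ^ s : ℕ) : ℤ) := by
    have h1 : 2 ≤ p := hp.out.two_le
    have h2 : p ^ 1 ≤ p ^ s := Nat.pow_le_pow_right (by omega) hs
    rw [pow_one] at h2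
    exact_mod_cast h1.trans h2
  have hΔb : A.valuation Δ ≤ A.valuation π ^ (1 - n) := by
    by_cases h0 : Δ = 0
    · rw [h0, map_zero]; exact zero_le
    obtain ⟨m', hm'⟩ := hπv Δ h0
    rw [hm', hmono]
    rw [hm', hvz, ← zpow_natCast, ← zpow_mul, hmono] at hΔp
    by_contra hcon
    push Not at hcon
    nlinarith
  have hΔe : y ^ e * (aeval y⁻¹ h - aeval (u * y⁻¹) h) = y ^ e * Δ := by
    rw [hyz, ← hwu, hΔ]
  have hvye : ∀ i : ℕ, A.valuation (y ^ i) = A.valuation π ^ (n * i) := by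
    intro i
    rw [map_pow, hvy', ← zpow_natCast, ← zpow_mul]
  have hvzi : ∀ i : ℕ, A.valuation (z ^ i) = A.valuation π ^ (-n * i) := by
    intro i
    rw [map_pow, hvz, ← zpow_natCast, ← zpow_mul]
  have hvwi : ∀ i : ℕ, A.valuation (w ^ i) = A.valuation π ^ (-n * i) := by
    intro i
    rw [map_pow, hvw, ← map_pow, hvzi]
  have hvabs : A.valuation (z ^ a * w ^ b) = A.valuation π ^ (-n * a + -n * b) := by
    rw [map_mul, hvzi, hvwi, ← zpow_add₀ hvπ.ne']
  have hen : (3 : ℤ) ≤ e := by rw [hee]; exact_mod_cast he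
  have habn : (a : ℤ) + b + 3 ≤ e := by rw [hee]; exact_mod_cast hab
  rw [← mul_assoc]
  by_cases hζ1 : ζ = 1
  · -- first case
    have hu1 : A.valuation (u - 1) < 1 := by
      rw [hζ1, map_one] at hζ
      exact hζ
    have h1 := diff1 hA h (by
      rw [← hee, Ne, map_eq_zero]
      exact mul_ne_zero hlc hek) hvy hy0 hvu hu1
    rw [← hee, hΔe, map_mul, hvye] at h1
    have h2 : A.valuation (z - w) = A.valuation π ^ (-n + n * e) * A.valuation Δ := by
      have : z - w = z * (1 - u) := by rw [hwu]; ring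
      rw [this, map_mul, ← h1, hvz, zpow_add₀ hvπ.ne', mul_assoc]
    have h3 : A.valuation (z ^ a * w ^ b * (z - w)) ≤
        A.valuation π ^ ((-n * a + -n * b) + ((-n + n * e) + (1 - n))) := by
      rw [map_mul, hvabs, h2, zpow_add₀ hvπ.ne' (-n * a + -n * b), zpow_add₀ hvπ.ne' (-n + n * e)]
      exact mul_le_mul_right (mul_le_mul_right hΔb _) _
    have h4 : PN N π (-n - 1) (D c) := by
      rw [← hz]
      exact pn_der hN hπ hπA hvz.le
    have h5 := pn_mul hN hπ h3 h4
    refine pn_mono hN hπ hπA ?_ h5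
    nlinarith
  · -- second case
    have hζe : ζ ^ e = 1 := by
      by_contra hcon
      have h1 := lead2 hA h e hee.ge hvy hy0 hvu hζ
      rw [hΔe] at h1
      have h2 := v_eq_one h1 (v_const hA (mul_ne_zero hlc (sub_ne_zero.2 (Ne.symm hcon))))
      rw [map_mul, hvye] at h2
      have h3 : A.valuation Δ = A.valuation π ^ (-(n * e)) := by
        rw [zpow_neg]
        exact eq_inv_of_mul_eq_one_right h2
      rw [h3, hmono] at hΔb
      nlinarith
    have hζe1 : 1 - ζ ^ (e - 1) ≠ 0 := by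
      intro h0
      apply hζ1
      have h1 : ζ ^ e = ζ ^ (e - 1) * ζ := by
        rw [← pow_succ]; congr 1; omega
      rw [hζe, (sub_eq_zero.1 h0).symm, one_mul] at h1
      exact h1.symm
    have hcoef : (derivative h).coeff (e - 1) = h.coeff e * (e : k) := by
      rw [coeff_derivative]
      have h1 : e - 1 + 1 = e := by omega
      have h2 : (((e - 1 : ℕ) : k) + 1) = (e : k) := by
        exact_mod_cast congrArg (fun i : ℕ => (i : k)) h1
      rw [h1, h2]
    have h1 := lead2 hA (derivative h) (e - 1) (by rw [hee]; exact natDegree_derivative_le h)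
      hvy hy0 hvu hζ
    have h2 := v_eq_one h1 (v_const hA (mul_ne_zero (by
      rw [hcoef]; exact mul_ne_zero hlc hek) hζe1))
    rw [hyz, ← hwu, map_mul, hvye] at h2
    obtain ⟨H, hH⟩ : ∃ H, H = aeval z (derivative h) - aeval w (derivative h) := ⟨_, rfl⟩
    rw [← hH] at h2
    have h3 : A.valuation H = A.valuation π ^ (-(n * ((e - 1 : ℕ) : ℤ))) := by
      rw [zpow_neg]
      exact eq_inv_of_mul_eq_one_right h2
    have h4 : D Δ = H * D c := by
      rw [hΔ, map_sub, D.map_aeval, D.map_aeval, hz, hw, smul_eq_mul, smul_eq_mul, hH, sub_mul]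
    have h5 : PN N π (1 - n - 1) (H * D c) := by
      rw [← h4]
      exact pn_der hN hπ hπA hΔb
    have h6 := pn_div hN hπ h3 h5
    have h7 : A.valuation (z ^ a * w ^ b * (z - w)) ≤
        A.valuation π ^ ((-n * a + -n * b) + -n) := by
      rw [map_mul, hvabs, zpow_add₀ hvπ.ne' (-n * a + -n * b)]
      refine mul_le_mul_right ?_ _
      refine (A.valuation.map_sub z w).trans ?_
      rw [hvw, max_self, hvz]
    have h8 := pn_mul hN hπ h7 h6
    refine pn_mono hN hπ hπA ?_ h8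
    have h9 : ((e - 1 : ℕ) : ℤ) = (e : ℤ) - 1 := by omega
    rw [h9]
    nlinarith

end Pool.Agent.N833.WU
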